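import Mathlib
import Pool.Agent.helper35.DR.SpecK

/-!
# Project dr, module KSC: Schur's lemma for projective representations
-/

set_option autoImplicit false

namespace Pool.Agent.DR

open scoped TensorProduct

/-- The map `f ↦ a * f * b`. -/
noncomputable def KSC_sand {V : Type} [AddCommGroup V] [Module ℂ V] (a b : Module.End ℂ V) :
    Module.End ℂ V →ₗ[ℂ] Module.End ℂ V :=
  LinearMap.mulLeft ℂ a ∘ₗ LinearMap.mulRight ℂ b

theorem KSC_sand_apply {V : Type} [AddCommGroup V] [Module ℂ V] (a b f : Module.End ℂ V) :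
    KSC_sand a b f = a * f * b := by
  simp [KSC_sand, mul_assoc]

theorem KSC_trace_sand {V : Type} [AddCommGroup V] [Module ℂ V] [FiniteDimensional ℂ V]
    (a b : Module.End ℂ V) :
    LinearMap.trace ℂ (Module.End ℂ V) (KSC_sand a b) =
      LinearMap.trace ℂ V a * LinearMap.trace ℂ V b := by
  have h : KSC_sand a b = (dualTensorHomEquiv ℂ V V).conj
      (TensorProduct.map (Module.Dual.transpose (R := ℂ) b) a) := by
    refine LinearMap.ext fun f => ?_
    obtain ⟨x, rfl⟩ := (dualTensorHomEquiv ℂ V V).surjective f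
    rw [LinearEquiv.conj_apply_apply, LinearEquiv.symm_apply_apply]
    induction x using TensorProduct.induction_on with
    | zero => simp
    | add x y hx hy => rw [map_add, map_add, hx, hy, map_add, map_add]
    | tmul φ v =>
      rw [KSC_sand_apply]
      ext w
      simp [dualTensorHomEquiv, Module.Dual.transpose_apply]
  rw [h, LinearMap.trace_conj', LinearMap.trace_tensorProduct', LinearMap.trace_transpose',
    mul_comm]

theorem KSC_smul_mid {V : Type} [AddCommGroup V] [Module ℂ V] (x : ℂ) (A g B : Module.End ℂ V) :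
    (x • A) * g * B = A * g * (x • B) := by
  rw [smul_mul_assoc, smul_mul_assoc, mul_smul_comm]

theorem KSC : KSC_stmt := by
  classical
  intro Q _ _ N β hβ V _ _ _ S hS1 hS htr f hf
  have hβ1 : ∀ n, β n n⁻¹ = β n⁻¹ n := by
    intro n
    have h := hβ.1 n n⁻¹ n
    rw [mul_inv_cancel, inv_mul_cancel, hβ.2.1, hβ.2.2, mul_one, one_mul] at h
    exact h
  let T : Q → Module.End ℂ V := fun n => ((β n n⁻¹ : ℂˣ) : ℂ)⁻¹ • S n⁻¹
  have hST : ∀ n ∈ N, S n * T n = 1 := by
    intro n hn
    change S n * (((β n n⁻¹ : ℂˣ) : ℂ)⁻¹ • S n⁻¹) = 1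
    rw [mul_smul_comm, hS n hn n⁻¹ (N.inv_mem hn), mul_inv_cancel, hS1, smul_smul,
      inv_mul_cancel₀ (Units.ne_zero _), one_smul]
  have hTS : ∀ n ∈ N, T n * S n = 1 := by
    intro n hn
    change (((β n n⁻¹ : ℂˣ) : ℂ)⁻¹ • S n⁻¹) * S n = 1
    rw [smul_mul_assoc, hS n⁻¹ (N.inv_mem hn) n hn, inv_mul_cancel, hS1, smul_smul, ← hβ1,
      inv_mul_cancel₀ (Units.ne_zero _), one_smul]
  -- conjugation by `S n`
  let c : Q → Module.End ℂ V →ₗ[ℂ] Module.End ℂ V := fun n => KSC_sand (S n) (T n)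
  have hc : ∀ n g, c n g = S n * g * T n := fun n g => KSC_sand_apply _ _ _
  have hTmul : ∀ m ∈ N, ∀ n ∈ N, T (m * n) = ((β m n : ℂˣ) : ℂ) • (T n * T m) := by
    intro m hm n hn
    have h1 : T (m * n) * S (m * n) = 1 := hTS _ (N.mul_mem hm hn)
    have h2 : S (m * n) * (((β m n : ℂˣ) : ℂ) • (T n * T m)) = 1 := by
      rw [mul_smul_comm, ← smul_mul_assoc, ← hS m hm n hn, mul_assoc, ← mul_assoc (S n),
        hST n hn, one_mul, hST m hm]
    calc T (m * n) = T (m * n) * (S (m * n) * (((β m n : ℂˣ) : ℂ) • (T n * T m))) := by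
          rw [h2, mul_one]
      _ = _ := by rw [← mul_assoc, h1, one_mul]
  have hcmul : ∀ m ∈ N, ∀ n ∈ N, ∀ g, c m (c n g) = c (m * n) g := by
    intro m hm n hn g
    rw [hc m, hc n, hc (m * n), hTmul m hm n hn]
    calc S m * (S n * g * T n) * T m = (S m * S n) * g * (T n * T m) := by
          simp only [mul_assoc]
      _ = S (m * n) * g * (((β m n : ℂˣ) : ℂ) • (T n * T m)) := by
          rw [hS m hm n hn]
          exact KSC_smul_mid _ _ _ _
  have hfinN : Fintype N := Fintype.ofFinite N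
  let P : Module.End ℂ V →ₗ[ℂ] Module.End ℂ V := ((Nat.card N : ℂ))⁻¹ • ∑ n : N, c n
  have hN0 : (Nat.card N : ℂ) ≠ 0 := by
    rw [Nat.cast_ne_zero]
    exact Nat.card_pos.ne'
  have hP : ∀ g, P g = ((Nat.card N : ℂ))⁻¹ • ∑ n : N, c n g := by
    intro g
    simp [P, LinearMap.sum_apply]
  have hcP : ∀ m ∈ N, ∀ g, c m (P g) = P g := by
    intro m hm g
    rw [hP, map_smul, map_sum]
    congr 1
    have : ∀ n : N, c m (c n g) = c ((⟨m, hm⟩ * n : N) : Q) g := fun n => hcmul m hm n n.2 g
    rw [Finset.sum_congr rfl fun n _ => this n]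
    exact Equiv.sum_comp (Equiv.mulLeft (⟨m, hm⟩ : N)) (fun n : N => c n g)
  let C : Submodule ℂ (Module.End ℂ V) :=
    { carrier := {g | ∀ n ∈ N, g * S n = S n * g}
      add_mem' := fun {a b} ha hb n hn => by rw [add_mul, mul_add, ha n hn, hb n hn]
      zero_mem' := fun n _ => by rw [zero_mul, mul_zero]
      smul_mem' := fun r a ha n hn => by rw [smul_mul_assoc, mul_smul_comm, ha n hn] }
  have hCc : ∀ g ∈ C, ∀ n ∈ N, c n g = g := by
    intro g hg n hn
    rw [hc, ← hg n hn, mul_assoc, hST n hn, mul_one]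
  have hproj : LinearMap.IsProj C P := by
    constructor
    · intro g n hn
      have h := hcP n hn g
      rw [hc] at h
      calc P g * S n = (S n * P g * T n) * S n := by rw [h]
        _ = S n * P g := by rw [mul_assoc, hTS n hn, mul_one]
    · intro g hg
      rw [hP, Finset.sum_congr rfl fun n _ => hCc g hg n.1 n.2, Finset.sum_const,
        Finset.card_univ, ← Nat.card_eq_fintype_card, ← Nat.cast_smul_eq_nsmul ℂ, smul_smul,
        inv_mul_cancel₀ hN0, one_smul]
  have htrP : LinearMap.trace ℂ (Module.End ℂ V) P = 1 := by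
    have h1 : LinearMap.trace ℂ (Module.End ℂ V) P =
        ((Nat.card N : ℂ))⁻¹ * ∑ n : N, LinearMap.trace ℂ V (S n) * LinearMap.trace ℂ V (T n) := by
      simp only [P, map_smul, map_sum, smul_eq_mul, c, KSC_trace_sand]
    have h2 : ∑ n : N, LinearMap.trace ℂ V (S n) * LinearMap.trace ℂ V (T n) = Nat.card N := by
      rw [← htr, finsum_mem_eq_finite_toFinset_sum _ (Set.toFinite _)]
      rw [← Finset.sum_subtype (p := fun q => q ∈ N) ((Set.toFinite (N : Set Q)).toFinset)
        (fun x => by simp) (fun n => LinearMap.trace ℂ V (S n) * LinearMap.trace ℂ V (T n))]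
      refine Finset.sum_congr rfl fun n _ => ?_
      simp only [T, map_smul, smul_eq_mul]
      ring
    rw [h1, h2, inv_mul_cancel₀ hN0]
  have hrank : Module.finrank ℂ C = 1 := by
    have h := hproj.trace
    rw [htrP] at h
    exact_mod_cast h.symm
  have hone : (1 : Module.End ℂ V) ∈ C := fun n _ => by rw [one_mul, mul_one]
  have hne : (⟨1, hone⟩ : C) ≠ 0 := by
    intro h
    have h1 : (1 : Module.End ℂ V) = 0 := congrArg Subtype.val h
    have h2 : ∀ g : C, g = 0 := by
      intro g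
      apply Subtype.ext
      change (g : Module.End ℂ V) = 0
      rw [← one_mul (g : Module.End ℂ V), h1, zero_mul]
    have h3 : Module.finrank ℂ C = 0 := by
      have : Subsingleton C := ⟨fun a b => by rw [h2 a, h2 b]⟩
      exact Module.finrank_zero_of_subsingleton
    omega
  obtain ⟨z, hz⟩ := (finrank_eq_one_iff_of_nonzero' _ hne).1 hrank ⟨f, hf⟩
  exact ⟨z, (congrArg Subtype.val hz).symm⟩

end Pool.Agent.DR
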